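import Pool.Agent.Helper58.QD.StM

/-!
# Project QD, module Sue: minimal primitives are limits of subsolutions
-/

set_option autoImplicit false
set_option maxSynthPendingDepth 3

open Set Filter Topology MeasureTheory
open Helper62.LH Helper62.DSH Helper58.QD
open scoped ContDiff ENNReal

noncomputable section

namespace Pool.Agent.Helper71.QD

/-! ### elementary facts -/

theorem sue_gs (hTr : StTr) {n : ℕ} {g : E n → Bl n} {Γ : E n → Bm n} {F : Fin n → E n → E n}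
    {G : E n → Fin n → Fin n → Fin n → ℝ} (hg : IsMet g) (hF : Frm g Γ F G) (z : E n → ℝ)
    (x : E n) : gs g z x = ∑ a, (fderiv ℝ z x (F a x)) ^ 2 := by
  unfold gs
  rw [((hTr n g hg x (fun a => F a x) (hF.onb x)).2.1 _ _)]
  refine Finset.sum_congr rfl fun a _ => ?_
  rw [sq]

theorem sue_tau (T s : ℝ) (hT : 0 < T) (hs : 0 < s) :
    0 < tau T s ∧ tau T s ≤ T ∧ s * (T / (T + s)) ^ 2 ≤ tau T s := by
  unfold tau
  have h : 0 < T + s := by positivity
  refine ⟨by positivity, ?_, ?_⟩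
  · rw [div_le_iff₀ h]
    nlinarith
  · rw [div_pow, mul_div_assoc', div_le_div_iff₀ (by positivity) h]
    have h1 : T * s * (T + s) ^ 2 - s * T ^ 2 * (T + s) = T * s * (T + s) * s := by ring
    have h2 : 0 ≤ T * s * (T + s) * s := by positivity
    linarith

theorem sue_dtau (T s : ℝ) (p : ℕ) (hT : 0 < T) (hs : 0 < s) :
    HasDerivAt (fun r => tau T r ^ p) (p * tau T s ^ (p - 1) * (T / (T + s)) ^ 2) s := by
  have h : T + s ≠ 0 := by positivity
  have h1 : HasDerivAt (fun r => tau T r) ((T / (T + s)) ^ 2) s := by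
    have h2 := ((hasDerivAt_id s).const_mul T).div ((hasDerivAt_id s).const_add T) h
    simp only [id] at h2
    refine h2.congr_deriv ?_
    field_simp
    ring
  exact h1.pow p

theorem sue_Fq (T s : ℝ) (p : ℕ) (hT : 0 < T) (hs : 0 < s) :
    0 ≤ (p : ℝ) * tau T s ^ (p - 1) * (T / (T + s)) ^ 2 ∧
    (p : ℝ) * tau T s ^ (p - 1) * (T / (T + s)) ^ 2 * s ≤ p * T ^ p := by
  obtain ⟨h1, h2, h3⟩ := sue_tau T s hT hs
  refine ⟨by positivity, ?_⟩
  rcases Nat.eq_zero_or_pos p with hp | hp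
  · subst hp
    simp
  · have h4 : (p : ℝ) * tau T s ^ (p - 1) * (T / (T + s)) ^ 2 * s =
        (p * tau T s ^ (p - 1)) * (s * (T / (T + s)) ^ 2) := by ring
    rw [h4]
    calc (p * tau T s ^ (p - 1)) * (s * (T / (T + s)) ^ 2)
        ≤ (p * tau T s ^ (p - 1)) * tau T s := mul_le_mul_of_nonneg_left h3 (by positivity)
      _ = p * (tau T s ^ (p - 1) * tau T s) := by ring
      _ = p * tau T s ^ p := by
        rw [← pow_succ, Nat.sub_add_cancel hp]
      _ ≤ p * T ^ p := by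
        refine mul_le_mul_of_nonneg_left (pow_le_pow_left₀ h1.le h2 p) (Nat.cast_nonneg _)

theorem sue_ipt_comm {n j : ℕ} (s t : Tn n j) : ipt s t = ipt t s := by
  unfold ipt
  refine congrArg (fun z => z / (j.factorial : ℝ)) (Finset.sum_congr rfl fun I _ => ?_)
  ring

theorem sue_ipt_sub {n j : ℕ} (r s t : Tn n j) : ipt (r - s) t = ipt r t - ipt s t := by
  unfold ipt
  rw [← sub_div, ← Finset.sum_sub_distrib]
  refine congrArg (fun z => z / (j.factorial : ℝ)) (Finset.sum_congr rfl fun I _ => ?_)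
  rw [Pi.sub_apply]
  ring

theorem sue_ipt_zero {n j : ℕ} (t : Tn n j) : ipt t 0 = 0 := by
  simp [ipt]

theorem sue_q2_zero {n j : ℕ} : q2 (0 : Tn n j) = 0 := by
  simp [q2, ipt]

theorem sue_q2_cont {n j : ℕ} : Continuous (fun t : Tn n j => q2 t) := by
  unfold q2 ipt
  fun_prop

theorem sue_ipt_cont {n j : ℕ} {s t : E n → Tn n j} (hs : Continuous s) (ht : Continuous t) :
    Continuous (fun x => ipt (s x) (t x)) := by
  unfold ipt
  have hs' : ∀ I, Continuous fun x => s x I := fun I => (continuous_apply I).comp hs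
  have ht' : ∀ I, Continuous fun x => t x I := fun I => (continuous_apply I).comp ht
  exact (continuous_finsetSum _ fun I _ => (hs' I).mul (ht' I)).div_const _

theorem sue_ipt_smooth {n j : ℕ} {s t : E n → Tn n j} (hs : ContDiff ℝ ∞ s)
    (ht : ContDiff ℝ ∞ t) : ContDiff ℝ ∞ (fun x => ipt (s x) (t x)) := by
  unfold ipt
  have hs' := contDiff_pi.1 hs
  have ht' := contDiff_pi.1 ht
  exact (ContDiff.sum fun I _ => (hs' I).mul (ht' I)).div_const _

theorem sue_ipt_le (hNrm : TNrm) {n j : ℕ} (s t : Tn n j) (θ : ℝ) (hθ : 0 < θ) :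
    ipt s t ≤ 1 / (2 * θ) * q2 s + θ / 2 * q2 t := by
  obtain ⟨a1, -, a3, -⟩ := hNrm n j
  have h1 := (le_abs_self _).trans (a3 s t)
  have h2 := (a1 s).1
  have h3 := (a1 t).1
  refine h1.trans ?_
  have h4 := Real.sq_sqrt h2
  have h5 := Real.sq_sqrt h3
  rw [← h4, ← h5, Real.sqrt_sq (Real.sqrt_nonneg _), Real.sqrt_sq (Real.sqrt_nonneg _)]
  generalize √(q2 s) = a
  generalize √(q2 t) = b
  have h6 : 1 / (2 * θ) * a ^ 2 + θ / 2 * b ^ 2 - a * b = (a - θ * b) ^ 2 / (2 * θ) := by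
    field_simp
    ring
  have h7 : 0 ≤ (a - θ * b) ^ 2 / (2 * θ) := by positivity
  linarith

/-! ### the function `w` -/

theorem sue_dw (hLbz : TLbz) {n j : ℕ} {g : E n → Bl n} {Γ : E n → Bm n}
    {F : Fin n → E n → E n} {G : E n → Fin n → Fin n → Fin n → ℝ} (hF : Frm g Γ F G)
    (u : E n → Tn n j) (hu : ContDiff ℝ ∞ u) (ε : ℝ) (x : E n) (a : Fin n) :
    fderiv ℝ (fun y => q2 (u y) + ε) x (F a x) = 2 * ipt (cv F G u x a) (u x) := by
  have h := (hLbz n j g Γ F G hF).1 u u hu hu x a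
  rw [fderiv_add_const]
  have h2 : (fun y => q2 (u y)) = fun y => ipt (u y) (u y) := rfl
  rw [h2, h, sue_ipt_comm (u x)]
  ring

theorem sue_gsw (hTr : StTr) (hNrm : TNrm) (hLbz : TLbz) {n j : ℕ} {g : E n → Bl n}
    {Γ : E n → Bm n} {F : Fin n → E n → E n} {G : E n → Fin n → Fin n → Fin n → ℝ}
    (hg : IsMet g) (hF : Frm g Γ F G) (u : E n → Tn n j) (hu : ContDiff ℝ ∞ u) (ε : ℝ)
    (hε : 0 ≤ ε) (x : E n) :
    gs g (fun y => q2 (u y) + ε) x ≤ 4 * (q2 (u x) + ε) * NF F G u x := by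
  obtain ⟨a1, -, a3, -⟩ := hNrm n j
  have hu0 := (a1 (u x)).1
  have hN : 0 ≤ NF F G u x := by
    unfold NF
    exact Finset.sum_nonneg fun a _ => (a1 _).1
  have h1 : gs g (fun y => q2 (u y) + ε) x ≤ 4 * q2 (u x) * NF F G u x := by
    rw [sue_gs hTr hg hF]
    unfold NF
    rw [Finset.mul_sum]
    refine Finset.sum_le_sum fun a _ => ?_
    rw [sue_dw hLbz hF u hu ε x a]
    have h2 := a3 (cv F G u x a) (u x)
    have h3 := (a1 (cv F G u x a)).1
    have h4 : (ipt (cv F G u x a) (u x)) ^ 2 ≤ q2 (cv F G u x a) * q2 (u x) := by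
      calc (ipt (cv F G u x a) (u x)) ^ 2 = |ipt (cv F G u x a) (u x)| ^ 2 := (sq_abs _).symm
        _ ≤ (√(q2 (cv F G u x a)) * √(q2 (u x))) ^ 2 :=
          pow_le_pow_left₀ (abs_nonneg _) h2 2
        _ = q2 (cv F G u x a) * q2 (u x) := by
          rw [mul_pow, Real.sq_sqrt h3, Real.sq_sqrt hu0]
    calc (2 * ipt (cv F G u x a) (u x)) ^ 2 = 4 * (ipt (cv F G u x a) (u x)) ^ 2 := by ring
      _ ≤ 4 * (q2 (cv F G u x a) * q2 (u x)) := by linarith
      _ = 4 * q2 (u x) * q2 (cv F G u x a) := by ring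
  have h5 : 0 ≤ ε * NF F G u x := mul_nonneg hε hN
  nlinarith

theorem sue_wsm {n j : ℕ} (u : E n → Tn n j) (hu : ContDiff ℝ ∞ u) (ε : ℝ) :
    ContDiff ℝ ∞ (fun y => q2 (u y) + ε) := by
  have h := sue_ipt_smooth hu hu
  exact h.add contDiff_const

/-! ### the test function -/

/-- the test function -/
def tf {n : ℕ} (T : ℝ) (p : ℕ) (χ w : E n → ℝ) (y : E n) : ℝ := χ y ^ 2 * tau T (w y) ^ p

theorem sue_tfd {n : ℕ} (T : ℝ) (p : ℕ) (χ w : E n → ℝ) (hT : 0 < T) (hχ : ContDiff ℝ ∞ χ)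
    (hw : ContDiff ℝ ∞ w) (hw0 : ∀ x, 0 < w x) (x v : E n) :
    fderiv ℝ (tf T p χ w) x v = 2 * χ x * fderiv ℝ χ x v * tau T (w x) ^ p +
      χ x ^ 2 * (p * tau T (w x) ^ (p - 1) * (T / (T + w x)) ^ 2) * fderiv ℝ w x v := by
  have h1 : HasFDerivAt χ (fderiv ℝ χ x) x :=
    (hχ.differentiable (by simp) x).hasFDerivAt
  have h2 : HasFDerivAt w (fderiv ℝ w x) x :=
    (hw.differentiable (by simp) x).hasFDerivAt
  have h3 := (sue_dtau T (w x) p hT (hw0 x)).comp_hasFDerivAt x h2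
  have h4 := (h1.pow 2).mul h3
  have h5 : HasFDerivAt (tf T p χ w) _ x := h4
  rw [h5.fderiv]
  simp only [add_apply, smul_apply, smul_eq_mul, Function.comp]
  push_cast
  ring

theorem sue_tfs {n : ℕ} (T : ℝ) (p : ℕ) (χ w : E n → ℝ) (hT : 0 < T) (hχ : ContDiff ℝ ∞ χ)
    (hw : ContDiff ℝ ∞ w) (hw0 : ∀ x, 0 < w x) : ContDiff ℝ ∞ (tf T p χ w) := by
  unfold tf tau
  refine (hχ.pow 2).mul (ContDiff.pow ?_ p)
  refine (contDiff_const.mul hw).div (contDiff_const.add hw) (fun x => ?_)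
  have := hw0 x
  positivity


/-! ### pointwise inequalities -/

/-- the product rule estimate -/
theorem sue_mul (hTr : StTr) (hNrm : TNrm) (hLbz : TLbz) {n m : ℕ} {g : E n → Bl n}
    {Γ : E n → Bm n} {F : Fin n → E n → E n} {G : E n → Fin n → Fin n → Fin n → ℝ}
    (hg : IsMet g) (hF : Frm g Γ F G) (φ : E n → ℝ) (u : E n → Tn n (m + 1))
    (hφ : ContDiff ℝ ∞ φ) (hu : ContDiff ℝ ∞ u) (x : E n) :
    q2 (dF F G (fun y => φ y • u y) x) + q2 (dlF F G (fun _ => 0) (fun y => φ y • u y) x) ≤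
      2 * φ x ^ 2 * (q2 (dF F G u x) + q2 (dlF F G (fun _ => 0) u x)) +
        (4 * m + 6) * (gs g φ x * q2 (u x)) := by
  obtain ⟨a1, -, -, -, -, a6, -, -⟩ := hNrm n (m + 1)
  obtain ⟨b1, b2, -, b4, -, -, -, -⟩ := hNrm n (m + 2)
  obtain ⟨c1, c2, -, c4, -, -, c7, -⟩ := hNrm n m
  obtain ⟨-, l2, -, -⟩ := hLbz n (m + 1) g Γ F G hF
  obtain ⟨-, -, l3, -⟩ := hLbz n m g Γ F G hF
  rw [(l2 φ u hφ hu x).2, l3 (fun _ => 0) φ u hφ hu x, sue_gs hTr hg hF]
  have e1 := b4 (φ x • dF F G u x) (wd (fun a => fderiv ℝ φ x (F a x) • u x)) 1 one_pos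
  have e2 := c4 (φ x • dlF F G (fun _ => 0) u x) (∑ a, fderiv ℝ φ x (F a x) • ct a (u x)) 1
    one_pos
  rw [b2] at e1
  rw [c2] at e2
  have e3 := a6 (fun a => fderiv ℝ φ x (F a x)) (u x)
  have e4 := c7 (fun a => fderiv ℝ φ x (F a x)) (u x)
  push_cast at e3 e4
  have r1 : (1 : ℝ) + 1 / 1 = 2 := by norm_num
  have r2 : (1 : ℝ) + 1 = 2 := by norm_num
  rw [r1, r2] at e1 e2
  have e5 : (m + 1 + 1 : ℝ) * (∑ a, (fderiv ℝ φ x (F a x)) ^ 2) * q2 (u x) * 2 +
      (m + 1 : ℝ) * (∑ a, (fderiv ℝ φ x (F a x)) ^ 2) * q2 (u x) * 2 =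
      (4 * m + 6) * ((∑ a, (fderiv ℝ φ x (F a x)) ^ 2) * q2 (u x)) := by ring
  linarith

/-- the pointwise form of the energy inequality -/
theorem sue_ptw (hTr : StTr) (hNrm : TNrm) (hLbz : TLbz) {n m : ℕ} {g : E n → Bl n}
    {Γ : E n → Bm n} {F : Fin n → E n → E n} {G : E n → Fin n → Fin n → Fin n → ℝ}
    (hg : IsMet g) (hF : Frm g Γ F G) (u : E n → Tn n (m + 1)) (hu : ContDiff ℝ ∞ u)
    (hua : Al u) (S : Set (E n)) (lam : ℝ) (hlam : 0 ≤ lam) (hW : WLo g Γ F m S lam)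
    (ε T : ℝ) (p : ℕ) (χ : E n → ℝ) (hε : 0 < ε) (hT : 0 < T) (hχ : ContDiff ℝ ∞ χ)
    (hχS : tsupport χ ⊆ S) (x : E n) :
    (1 / 4) * (χ x ^ 2 * tau T (q2 (u x) + ε) ^ p *
      (gs g (fun y => q2 (u y) + ε) x / (q2 (u x) + ε))) +
    (1 / 2) * (χ x ^ 2 * (p * tau T (q2 (u x) + ε) ^ (p - 1) *
      (T / (T + (q2 (u x) + ε))) ^ 2) * gs g (fun y => q2 (u y) + ε) x) ≤
    |χ x| * tau T (q2 (u x) + ε) ^ p *
      (√(gs g χ x) * √(gs g (fun y => q2 (u y) + ε) x)) +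
    lam * (χ x ^ 2 * tau T (q2 (u x) + ε) ^ p * (q2 (u x) + ε)) +
    (tf T p χ (fun y => q2 (u y) + ε) x * NF F G u x +
      (∑ a, fderiv ℝ (tf T p χ (fun y => q2 (u y) + ε)) x (F a x) *
        ipt (cv F G u x a) (u x)) +
      tf T p χ (fun y => q2 (u y) + ε) x * Wz (Rc g Γ F x) (u x)) := by
  have hq0 : ∀ y, 0 ≤ q2 (u y) := fun y => ((hNrm n (m + 1)).1 _).1
  have hw0 : ∀ y, 0 < q2 (u y) + ε := fun y => by linarith [hq0 y]
  have hws := sue_wsm u hu ε
  have hN := sue_gsw hTr hNrm hLbz hg hF u hu ε hε.le x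
  have hdw : ∀ a, fderiv ℝ (fun y => q2 (u y) + ε) x (F a x) =
    2 * ipt (cv F G u x a) (u x) := fun a => sue_dw hLbz hF u hu ε x a
  have hdf : ∀ a, fderiv ℝ (tf T p χ (fun y => q2 (u y) + ε)) x (F a x) = _ := fun a =>
    sue_tfd T p χ (fun y => q2 (u y) + ε) hT hχ hws hw0 x (F a x)
  have hWx : χ x = 0 ∨ -(lam * q2 (u x)) ≤ Wz (Rc g Γ F x) (u x) := by
    by_cases h : x ∈ tsupport χ
    · exact Or.inr (hW x (hχS h) (u x) (hua x))
    · exact Or.inl (image_eq_zero_of_notMem_tsupport h)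
  have hgs1 := sue_gs hTr hg hF (fun y => q2 (u y) + ε) x
  have hgs2 := sue_gs hTr hg hF χ x
  obtain ⟨Fq0, -⟩ := sue_Fq T (q2 (u x) + ε) p hT (hw0 x)
  obtain ⟨t0, -, -⟩ := sue_tau T (q2 (u x) + ε) hT (hw0 x)
  have Fp0 : 0 ≤ tau T (q2 (u x) + ε) ^ p := by positivity
  have hwx := hw0 x
  have hqx := hq0 x
  unfold tf at hdf ⊢
  simp only [hdf, hdw] at hgs1 ⊢
  generalize hgw : gs g (fun y => q2 (u y) + ε) x = gw at *
  generalize hgc : gs g χ x = gc at *
  generalize NF F G u x = N at *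
  generalize Wz (Rc g Γ F x) (u x) = Z at *
  generalize hFq : (p : ℝ) * tau T (q2 (u x) + ε) ^ (p - 1) * (T / (T + (q2 (u x) + ε))) ^ 2 =
    Fq at *
  generalize tau T (q2 (u x) + ε) ^ p = Fp at *
  generalize hwd : q2 (u x) + ε = w at *
  generalize χ x = c at *
  have hgw0 : 0 ≤ gw := by
    rw [hgs1]
    exact Finset.sum_nonneg fun a _ => sq_nonneg _
  have hgc0 : 0 ≤ gc := by
    rw [hgs2]
    exact Finset.sum_nonneg fun a _ => sq_nonneg _
  -- the sum
  have s1 : ∑ a, (2 * c * fderiv ℝ χ x (F a x) * Fp +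
      c ^ 2 * Fq * (2 * ipt (cv F G u x a) (u x))) * ipt (cv F G u x a) (u x) =
      c * Fp * (∑ a, fderiv ℝ χ x (F a x) * (2 * ipt (cv F G u x a) (u x))) +
      (1 / 2) * (c ^ 2 * Fq * gw) := by
    rw [hgs1, Finset.mul_sum, Finset.mul_sum, Finset.mul_sum, ← Finset.sum_add_distrib]
    refine Finset.sum_congr rfl fun a _ => ?_
    ring
  have s2 : |∑ a, fderiv ℝ χ x (F a x) * (2 * ipt (cv F G u x a) (u x))| ≤ √gc * √gw := by
    have h1 := Finset.sum_mul_sq_le_sq_mul_sq Finset.univ (fun a => fderiv ℝ χ x (F a x))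
      (fun a => 2 * ipt (cv F G u x a) (u x))
    rw [← hgs1, ← hgs2] at h1
    rw [← Real.sqrt_mul hgc0]
    exact Real.abs_le_sqrt h1
  rw [s1]
  have s3 : -(|c| * Fp * (√gc * √gw)) ≤
      c * Fp * (∑ a, fderiv ℝ χ x (F a x) * (2 * ipt (cv F G u x a) (u x))) := by
    have h1 : |c * Fp * (∑ a, fderiv ℝ χ x (F a x) * (2 * ipt (cv F G u x a) (u x)))| ≤
        |c| * Fp * (√gc * √gw) := by
      rw [abs_mul, abs_mul, abs_of_nonneg Fp0]
      exact mul_le_mul_of_nonneg_left s2 (by positivity)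
    linarith [neg_abs_le (c * Fp *
      (∑ a, fderiv ℝ χ x (F a x) * (2 * ipt (cv F G u x a) (u x))))]
  have s4 : (1 / 4) * (c ^ 2 * Fp * (gw / w)) ≤ c ^ 2 * Fp * N := by
    have h1 : gw / w ≤ 4 * N := by
      rw [div_le_iff₀ hwx]
      linarith
    have h2 := mul_le_mul_of_nonneg_left h1 (show 0 ≤ c ^ 2 * Fp by positivity)
    linarith
  have s5 : -(lam * (c ^ 2 * Fp * w)) ≤ c ^ 2 * Fp * Z := by
    rcases hWx with h | h
    · rw [h]
      simp
    · have h1 : -(lam * w) ≤ Z := by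
        have : lam * q2 (u x) ≤ lam * w := mul_le_mul_of_nonneg_left (by linarith) hlam
        linarith
      have h2 := mul_le_mul_of_nonneg_left h1 (show 0 ≤ c ^ 2 * Fp by positivity)
      linarith
  linarith


/-! ### continuity and integrability -/

theorem sue_integ {n : ℕ} {h : E n → ℝ} (hc : Continuous h) {K : Set (E n)} (hK : IsCompact K)
    (h0 : ∀ x, x ∉ K → h x = 0) : Integrable h :=
  hc.integrable_of_hasCompactSupport (HasCompactSupport.intro hK fun x hx => h0 x hx)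

theorem sue_Dc {n : ℕ} {F : Fin n → E n → E n} (hF : ∀ a, ContDiff ℝ ∞ (F a)) {z : E n → ℝ}
    (hz : ContDiff ℝ ∞ z) (a : Fin n) : Continuous (fun x => fderiv ℝ z x (F a x)) :=
  (hz.continuous_fderiv (by simp)).clm_apply (hF a).continuous

theorem sue_gsc (hTr : StTr) {n : ℕ} {g : E n → Bl n} {Γ : E n → Bm n} {F : Fin n → E n → E n}
    {G : E n → Fin n → Fin n → Fin n → ℝ} (hg : IsMet g) (hF : Frm g Γ F G) {z : E n → ℝ}
    (hz : ContDiff ℝ ∞ z) : Continuous (fun x => gs g z x) := by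
  simp only [sue_gs hTr hg hF z]
  exact continuous_finsetSum _ fun a _ => (sue_Dc hF.smF hz a).pow 2

theorem sue_gs_bd (hTr : StTr) {n : ℕ} {g : E n → Bl n} {Γ : E n → Bm n}
    {F : Fin n → E n → E n} {G : E n → Fin n → Fin n → Fin n → ℝ} (hg : IsMet g)
    (hF : Frm g Γ F G) {z : E n → ℝ} (hz : Cc z) : ∃ B : ℝ, 0 ≤ B ∧ ∀ x, gs g z x ≤ B := by
  obtain ⟨B, hB⟩ := (HasCompactSupport.intro (f := fun x => gs g z x) hz.2
    (fun x hx => by
      show gs g z x = 0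
      rw [sue_gs hTr hg hF, fderiv_of_notMem_tsupport ℝ hx]
      simp)).exists_bound_of_continuous (sue_gsc hTr hg hF hz.1)
  refine ⟨max B 0, le_max_right _ _, fun x => ?_⟩
  exact ((le_abs_self _).trans (hB x)).trans (le_max_left _ _)

theorem sue_NFc (hDer : TDer) {n j : ℕ} {g : E n → Bl n} {Γ : E n → Bm n}
    {F : Fin n → E n → E n} {G : E n → Fin n → Fin n → Fin n → ℝ} (hF : Frm g Γ F G)
    {u : E n → Tn n j} (hu : ContDiff ℝ ∞ u) : Continuous (fun x => NF F G u x) := by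
  unfold NF
  exact continuous_finsetSum _ fun a _ =>
    sue_q2_cont.comp (((hDer n j g Γ F G hF).1 u hu).1 a).continuous

theorem sue_rcc (hChr : StChr) {n : ℕ} {g : E n → Bl n} {Γ : E n → Bm n}
    {F : Fin n → E n → E n} (hg : IsMet g) (hΓ : IsChr g Γ) (hF : ∀ a, ContDiff ℝ ∞ (F a))
    (a b c l : Fin n) : Continuous (fun x => Rc g Γ F x a b c l) := by
  have hgc := hg.smooth.continuous
  have hΓs := (hChr n g Γ hg hΓ).1
  have hΓc := hΓs.continuous
  have hΓd := hΓs.continuous_fderiv (by simp)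
  have ha := (hF a).continuous
  have hb := (hF b).continuous
  have hc := (hF c).continuous
  have hl := (hF l).continuous
  have h2 : Continuous (fun x => Rm Γ x (F a x) (F b x) (F c x)) := by
    unfold Rm
    refine ((Continuous.add (Continuous.sub ?_ ?_) ?_).sub ?_)
    · exact ((hΓd.clm_apply ha).clm_apply hb).clm_apply hc
    · exact ((hΓd.clm_apply hb).clm_apply ha).clm_apply hc
    · exact (hΓc.clm_apply ha).clm_apply ((hΓc.clm_apply hb).clm_apply hc)
    · exact (hΓc.clm_apply hb).clm_apply ((hΓc.clm_apply ha).clm_apply hc)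
  exact (hgc.clm_apply h2).clm_apply hl

theorem sue_wzc (hChr : StChr) {n m : ℕ} {g : E n → Bl n} {Γ : E n → Bm n}
    {F : Fin n → E n → E n} (hg : IsMet g) (hΓ : IsChr g Γ) (hF : ∀ a, ContDiff ℝ ∞ (F a))
    {u : E n → Tn n (m + 1)} (hu : Continuous u) :
    Continuous (fun x => Wz (Rc g Γ F x) (u x)) := by
  have hI : ∀ I, Continuous fun x => u x I := fun I => (continuous_apply I).comp hu
  unfold Wz
  refine continuous_finsetSum _ fun a _ => continuous_finsetSum _ fun b _ => ?_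
  refine sue_ipt_cont (continuous_pi fun K => hI (Fin.cons a K)) (continuous_pi fun K => ?_)
  show Continuous fun x => ∑ k, ∑ l, Rc g Γ F x a b ((Fin.cons b K : Fin (m + 1) → Fin n) k) l *
    u x (Function.update (Fin.cons b K : Fin (m + 1) → Fin n) k l)
  refine continuous_finsetSum _ fun k _ => continuous_finsetSum _ fun l _ => ?_
  exact (sue_rcc hChr hg hΓ hF a b _ l).mul (hI _)

theorem sue_wz0 {n m : ℕ} (R : Fin n → Fin n → Fin n → Fin n → ℝ) :
    Wz R (0 : Tn n (m + 1)) = 0 := by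
  unfold Wz
  refine Finset.sum_eq_zero fun a _ => Finset.sum_eq_zero fun b _ => ?_
  have h : ct a (0 : Tn n (m + 1)) = 0 := rfl
  rw [h, sue_ipt_comm, sue_ipt_zero]

/-- the energy inequality with the error `e` -/
theorem sue_sub (hChr : StChr) (hTr : StTr) (hDlv : StDlv) (hNrm : TNrm) (hDer : TDer)
    (hLbz : TLbz) (hBop : SBop) {n m : ℕ} {g : E n → Bl n}
    {Γ : E n → Bm n} {F : Fin n → E n → E n} {G : E n → Fin n → Fin n → Fin n → ℝ}
    (hg : IsMet g) (hΓ : IsChr g Γ) (hF : Frm g Γ F G) (u : E n → Tn n (m + 1))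
    (hu : ContDiff ℝ ∞ u)
    (hua : Al u) (S : Set (E n)) (lam : ℝ) (hlam : 0 ≤ lam) (hW : WLo g Γ F m S lam)
    (ε T : ℝ) (p : ℕ) (χ : E n → ℝ) (hε : 0 < ε) (hT : 0 < T) (hχ : Cc χ)
    (hχS : tsupport χ ⊆ S) (e : ℝ)
    (he : ∫ x, (ipt (dF F G u x) (dF F G (fun y => tf T p χ (fun y => q2 (u y) + ε) y • u y) x) +
      ipt (dlF F G (fun _ => 0) u x) (dlF F G (fun _ => 0)
        (fun y => tf T p χ (fun y => q2 (u y) + ε) y • u y) x)) * vol g x ≤ e) :
    SubI g lam (fun x => q2 (u x) + ε) T p χ e := by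
  obtain ⟨hv1, hv2, -⟩ := hDlv n g Γ hg hΓ
  have hvc : Continuous (vol g) := hv1.continuous
  have hq0 : ∀ y, 0 ≤ q2 (u y) := fun y => ((hNrm n (m + 1)).1 _).1
  have hw0 : ∀ y, 0 < q2 (u y) + ε := fun y => by linarith [hq0 y]
  have hws := sue_wsm u hu ε
  have hts := sue_tfs T p χ (fun y => q2 (u y) + ε) hT hχ.1 hws hw0
  have hK := hχ.2
  have z0 : ∀ x, x ∉ tsupport χ → χ x = 0 := fun x hx => image_eq_zero_of_notMem_tsupport hx
  have z1 : ∀ x, x ∉ tsupport χ → tf T p χ (fun y => q2 (u y) + ε) x = 0 := by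
    intro x hx
    unfold tf
    rw [z0 x hx]
    simp
  have hsup : tsupport (tf T p χ (fun y => q2 (u y) + ε)) ⊆ tsupport χ := by
    refine closure_minimal (fun x hx => ?_) (isClosed_tsupport χ)
    by_contra h
    exact hx (z1 x h)
  have hcs : HasCompactSupport (tf T p χ (fun y => q2 (u y) + ε)) :=
    IsCompact.of_isClosed_subset hK isClosed_closure hsup
  have z2 : ∀ x, x ∉ tsupport χ → fderiv ℝ (tf T p χ (fun y => q2 (u y) + ε)) x = 0 :=
    fun x hx => fderiv_of_notMem_tsupport ℝ fun h => hx (hsup h)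
  have hb := hBop n m g Γ F G hg hΓ hF u hu hua _ ⟨hts, hcs⟩
  rw [← hb] at he
  have cw := hws.continuous
  have ct1 : Continuous (fun x => tau T (q2 (u x) + ε)) := by
    unfold tau
    refine (continuous_const.mul cw).div (continuous_const.add cw) (fun x => ?_)
    have := hw0 x
    positivity
  have ct2 : Continuous (fun x => T / (T + (q2 (u x) + ε))) := by
    refine continuous_const.div (continuous_const.add cw) (fun x => ?_)
    have := hw0 x
    positivity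
  have cgw := sue_gsc hTr hg hF hws
  have cgc := sue_gsc hTr hg hF hχ.1
  have cc := hχ.1.continuous
  have i1 : Integrable (fun x => χ x ^ 2 * tau T (q2 (u x) + ε) ^ p *
      (gs g (fun y => q2 (u y) + ε) x / (q2 (u x) + ε)) * vol g x) := by
    refine sue_integ ((((cc.pow 2).mul (ct1.pow p)).mul
      (cgw.div cw (fun x => (hw0 x).ne'))).mul hvc) hK (fun x hx => ?_)
    rw [z0 x hx]
    simp
  have i2 : Integrable (fun x => χ x ^ 2 * (p * tau T (q2 (u x) + ε) ^ (p - 1) *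
      (T / (T + (q2 (u x) + ε))) ^ 2) * gs g (fun y => q2 (u y) + ε) x * vol g x) := by
    refine sue_integ ((((cc.pow 2).mul ((continuous_const.mul (ct1.pow (p - 1))).mul
      (ct2.pow 2))).mul cgw).mul hvc) hK (fun x hx => ?_)
    rw [z0 x hx]
    simp
  have i3 : Integrable (fun x => |χ x| * tau T (q2 (u x) + ε) ^ p *
      (√(gs g χ x) * √(gs g (fun y => q2 (u y) + ε) x)) * vol g x) := by
    refine sue_integ (((cc.abs.mul (ct1.pow p)).mul (cgc.sqrt.mul cgw.sqrt)).mul hvc) hK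
      (fun x hx => ?_)
    rw [z0 x hx]
    simp
  have i4 : Integrable (fun x => χ x ^ 2 * tau T (q2 (u x) + ε) ^ p *
      (q2 (u x) + ε) * vol g x) := by
    refine sue_integ ((((cc.pow 2).mul (ct1.pow p)).mul cw).mul hvc) hK (fun x hx => ?_)
    rw [z0 x hx]
    simp
  have i5 : Integrable (fun x => (tf T p χ (fun y => q2 (u y) + ε) x * NF F G u x +
      (∑ a, fderiv ℝ (tf T p χ (fun y => q2 (u y) + ε)) x (F a x) *
        ipt (cv F G u x a) (u x)) +
      tf T p χ (fun y => q2 (u y) + ε) x * Wz (Rc g Γ F x) (u x)) * vol g x) := by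
    refine sue_integ ((((hts.continuous.mul (sue_NFc hDer hF hu)).add
      (continuous_finsetSum _ fun a _ => (sue_Dc hF.smF hts a).mul
        (sue_ipt_cont (((hDer n (m + 1) g Γ F G hF).1 u hu).1 a).continuous hu.continuous))).add
      (hts.continuous.mul (sue_wzc hChr hg hΓ hF.smF hu.continuous))).mul hvc) hK
      (fun x hx => ?_)
    rw [z1 x hx, z2 x hx]
    simp
  unfold SubI
  have L1 : (1 / 4) * (∫ x, χ x ^ 2 * tau T (q2 (u x) + ε) ^ p *
      (gs g (fun y => q2 (u y) + ε) x / (q2 (u x) + ε)) * vol g x) +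
      (1 / 2) * (∫ x, χ x ^ 2 * (p * tau T (q2 (u x) + ε) ^ (p - 1) *
      (T / (T + (q2 (u x) + ε))) ^ 2) * gs g (fun y => q2 (u y) + ε) x * vol g x) =
      ∫ x, ((1 / 4) * (χ x ^ 2 * tau T (q2 (u x) + ε) ^ p *
      (gs g (fun y => q2 (u y) + ε) x / (q2 (u x) + ε)) * vol g x) +
      (1 / 2) * (χ x ^ 2 * (p * tau T (q2 (u x) + ε) ^ (p - 1) *
      (T / (T + (q2 (u x) + ε))) ^ 2) * gs g (fun y => q2 (u y) + ε) x * vol g x)) := by
    rw [integral_add (i1.const_mul _) (i2.const_mul _), integral_const_mul, integral_const_mul]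
  have L2 : (∫ x, |χ x| * tau T (q2 (u x) + ε) ^ p *
      (√(gs g χ x) * √(gs g (fun y => q2 (u y) + ε) x)) * vol g x) +
      lam * (∫ x, χ x ^ 2 * tau T (q2 (u x) + ε) ^ p * (q2 (u x) + ε) * vol g x) +
      (∫ x, (tf T p χ (fun y => q2 (u y) + ε) x * NF F G u x +
      (∑ a, fderiv ℝ (tf T p χ (fun y => q2 (u y) + ε)) x (F a x) *
        ipt (cv F G u x a) (u x)) +
      tf T p χ (fun y => q2 (u y) + ε) x * Wz (Rc g Γ F x) (u x)) * vol g x) =
      ∫ x, ((|χ x| * tau T (q2 (u x) + ε) ^ p *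
      (√(gs g χ x) * √(gs g (fun y => q2 (u y) + ε) x)) * vol g x) +
      lam * (χ x ^ 2 * tau T (q2 (u x) + ε) ^ p * (q2 (u x) + ε) * vol g x) +
      (tf T p χ (fun y => q2 (u y) + ε) x * NF F G u x +
      (∑ a, fderiv ℝ (tf T p χ (fun y => q2 (u y) + ε)) x (F a x) *
        ipt (cv F G u x a) (u x)) +
      tf T p χ (fun y => q2 (u y) + ε) x * Wz (Rc g Γ F x) (u x)) * vol g x) := by
    have e1 := integral_add (i3.add (i4.const_mul lam)) i5
    have e2 := integral_add i3 (i4.const_mul lam)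
    simp only [Pi.add_apply] at e1
    rw [e1, e2, integral_const_mul]
  have L3 := integral_mono ((i1.const_mul (1 / 4)).add (i2.const_mul (1 / 2)))
    ((i3.add (i4.const_mul lam)).add i5) (fun x => ?_)
  · simp only [Pi.add_apply] at L3
    rw [← L1, ← L2] at L3
    linarith
  · simp only [Pi.add_apply]
    have h := sue_ptw hTr hNrm hLbz hg hF u hu hua S lam hlam hW ε T p χ hε hT hχ.1 hχS x
    have h2 := mul_le_mul_of_nonneg_right h (hv2 x).le
    calc _ = ((1 / 4) * (χ x ^ 2 * tau T (q2 (u x) + ε) ^ p *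
          (gs g (fun y => q2 (u y) + ε) x / (q2 (u x) + ε))) +
        (1 / 2) * (χ x ^ 2 * (p * tau T (q2 (u x) + ε) ^ (p - 1) *
          (T / (T + (q2 (u x) + ε))) ^ 2) * gs g (fun y => q2 (u y) + ε) x)) * vol g x := by
          ring
      _ ≤ _ := h2
      _ = _ := by ring


/-! ### cut-off functions and integrals -/

theorem sue_cut {n : ℕ} {K S : Set (E n)} (hK : IsCompact K) (hS : IsOpen S) (h : K ⊆ S) :
    ∃ χ : E n → ℝ, Cc χ ∧ (∀ x, 0 ≤ χ x ∧ χ x ≤ 1) ∧ (∀ x ∈ K, χ x = 1) ∧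
      tsupport χ ⊆ S := by
  obtain ⟨L, hL, hKL, hLS⟩ := exists_compact_between hK hS h
  obtain ⟨f, hf0, hf1, hf⟩ := exists_contMDiffMap_zero_one_of_isClosed
    (modelWithCornersSelf ℝ (E n)) (n := (⊤ : ℕ∞)) (s := (interior L)ᶜ) (t := K)
    isOpen_interior.isClosed_compl hK.isClosed
    (Set.disjoint_left.2 fun x hx hx' => hx (hKL hx'))
  have hsub : tsupport (f : E n → ℝ) ⊆ L := by
    refine closure_minimal (fun x hx => ?_) hL.isClosed
    by_contra h'
    refine hx (hf0 ?_)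
    exact fun h'' => h' (interior_subset h'')
  refine ⟨f, ⟨f.contMDiff.contDiff, IsCompact.of_isClosed_subset hL isClosed_closure hsub⟩,
    fun x => hf x, fun x hx => hf1 hx, hsub.trans hLS⟩

theorem sue_l2 {n j : ℕ} (η u : E n → Tn n j) (w : E n → ℝ) (hη : L2t η) (hu : Continuous u)
    (hw : Continuous w) (L : Set (E n)) (hL : IsCompact L) :
    IntegrableOn (fun x => q2 (u x - η x) * w x) L := by
  have h1 : ∀ I, IntegrableOn (fun x => (u x I - η x I) ^ 2) L := by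
    intro I
    obtain ⟨m1, m2⟩ := hη I
    have c1 : Continuous (fun x => u x I) := (continuous_apply I).comp hu
    have q1 : MemLp (fun x => η x I) 2 (volume.restrict L) :=
      (memLp_two_iff_integrable_sq (m1.mono_measure Measure.restrict_le_self)).2 (m2 L hL)
    have q2 : MemLp (fun x => u x I) 2 (volume.restrict L) :=
      (memLp_two_iff_integrable_sq c1.aestronglyMeasurable).2
        ((c1.pow 2).continuousOn.integrableOn_compact hL)
    exact (q2.sub q1).integrable_sq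
  have h2 : IntegrableOn (fun x => q2 (u x - η x)) L := by
    have h3 : (fun x => q2 (u x - η x)) =
        fun x => (∑ I, (u x I - η x I) ^ 2) / (j.factorial : ℝ) := by
      funext x
      unfold q2 ipt
      refine congrArg (fun z => z / (j.factorial : ℝ)) (Finset.sum_congr rfl fun I _ => ?_)
      rw [Pi.sub_apply, sq]
    rw [h3]
    exact (integrable_finsetSum _ fun I _ => h1 I).div_const _
  exact h2.mul_continuousOn hw.continuousOn hL

theorem sue_l2' {n j : ℕ} (η : E n → Tn n j) (w : E n → ℝ) (hη : L2t η)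
    (hw : Continuous w) (L : Set (E n)) (hL : IsCompact L) :
    IntegrableOn (fun x => q2 (η x) * w x) L := by
  have h := sue_l2 η (fun _ => 0) w hη continuous_const hw L hL
  have h2 : (fun x => q2 ((0 : Tn n j) - η x) * w x) = fun x => q2 (η x) * w x := by
    funext x
    unfold q2 ipt
    simp
  rw [h2] at h
  exact h

theorem sue_dl0 (hDer : TDer) {n m : ℕ} {g : E n → Bl n} {Γ : E n → Bm n}
    {F : Fin n → E n → E n} {G : E n → Fin n → Fin n → Fin n → ℝ} (hF : Frm g Γ F G)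
    (v : E n → Tn n (m + 1)) (x : E n) (hx : x ∉ tsupport v) :
    v x = 0 ∧ (∀ a, cv F G v x a = 0) ∧ dF F G v x = 0 ∧
      dlF F G (fun _ => 0) v x = 0 := by
  obtain ⟨-, -, -, -, -, -, -, d8⟩ := hDer n (m + 1) g Γ F G hF
  obtain ⟨h1, h2, h3⟩ := d8 v x hx
  refine ⟨h1, h2, h3, ?_⟩
  unfold dlF
  rw [h1]
  refine Finset.sum_eq_zero fun a _ => ?_
  rw [h2 a]
  funext I
  simp [ct]

/-- the integral of `|∇u|²` -/
theorem sue_e1 (hChr : StChr) (hTr : StTr) (hDlv : StDlv) (hNrm : TNrm) (hDer : TDer)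
    (hLbz : TLbz) (hBol : SBol) {n m : ℕ} {g : E n → Bl n}
    {Γ : E n → Bm n} {F : Fin n → E n → E n} {G : E n → Fin n → Fin n → Fin n → ℝ}
    (hg : IsMet g) (hΓ : IsChr g Γ) (hF : Frm g Γ F G) (S : Set (E n)) (lam : ℝ)
    (hlam : 0 ≤ lam) (hW : WLo g Γ F m S lam) (χ : E n → ℝ) (hχ : Cc χ)
    (h01 : ∀ x, 0 ≤ χ x ∧ χ x ≤ 1) (hχS : tsupport χ ⊆ S) (K : Set (E n)) (hK : IsCompact K)
    (h1 : ∀ x ∈ K, χ x = 1) (B : ℝ) (hB : ∀ x, gs g χ x ≤ B) (u : E n → Tn n (m + 1))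
    (hu : ContDiff ℝ ∞ u) (hua : Al u) :
    ∫ x in K, NF F G u x * vol g x ≤ ∫ x in tsupport χ,
      (2 * (q2 (dF F G u x) + q2 (dlF F G (fun _ => 0) u x)) +
        ((4 * m + 6) * B + lam) * q2 (u x)) * vol g x := by
  obtain ⟨hv1, hv2, -⟩ := hDlv n g Γ hg hΓ
  have hvc : Continuous (vol g) := hv1.continuous
  have hvp : ∀ x, 0 ≤ vol g x := fun x => (hv2 x).le
  have n1 : ∀ t : Tn n (m + 1), 0 ≤ q2 t := fun t => ((hNrm n (m + 1)).1 t).1
  have n2 : ∀ t : Tn n (m + 2), 0 ≤ q2 t := fun t => ((hNrm n (m + 2)).1 t).1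
  have n0 : ∀ t : Tn n m, 0 ≤ q2 t := fun t => ((hNrm n m).1 t).1
  obtain ⟨v, hvd⟩ : ∃ v : E n → Tn n (m + 1), v = fun y => χ y • u y := ⟨_, rfl⟩
  have hv : ContDiff ℝ ∞ v := by
    rw [hvd]
    exact hχ.1.smul hu
  have hva : Al v := by
    intro x I σ
    rw [hvd]
    simp only [Pi.smul_apply, smul_eq_mul]
    rw [hua x I σ]
    ring
  have hsupp : ∀ x, x ∉ tsupport χ → x ∉ tsupport v := by
    intro x hx h
    apply hx
    rw [hvd] at h
    exact tsupport_smul_subset_left χ u h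
  have hvcs : HasCompactSupport v := by
    rw [hvd]
    exact hχ.2.smul_right
  have z : ∀ x, x ∉ tsupport χ → _ := fun x hx => sue_dl0 hDer hF v x (hsupp x hx)
  obtain ⟨d1, -, -, -, -, -, -, -⟩ := hDer n (m + 1) g Γ F G hF
  obtain ⟨-, d2, -, -, -, -, -, -⟩ := hDer n m g Γ F G hF
  obtain ⟨-, l2, -, -⟩ := hLbz n (m + 1) g Γ F G hF
  have hbo := hBol n m g Γ F G hg hΓ hF v hv hva hvcs
  have cN : Continuous (fun x => NF F G v x) := sue_NFc hDer hF hv
  have cW : Continuous (fun x => Wz (Rc g Γ F x) (v x)) :=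
    sue_wzc hChr hg hΓ hF.smF hv.continuous
  have cD : Continuous (fun x => q2 (dF F G v x)) := sue_q2_cont.comp (d1 v hv).2.continuous
  have cI : Continuous (fun x => q2 (v x)) := sue_q2_cont.comp hv.continuous
  have cdl : Continuous (fun x => q2 (dlF F G (fun _ => 0) v x)) :=
    sue_q2_cont.comp (d2 (fun _ => 0) v contDiff_const hv).continuous
  have zN : ∀ x, x ∉ tsupport χ → NF F G v x = 0 := by
    intro x hx
    unfold NF
    refine Finset.sum_eq_zero fun a _ => ?_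
    rw [(z x hx).2.1 a, sue_q2_zero]
  have iN : Integrable (fun x => NF F G v x * vol g x) :=
    sue_integ (cN.mul hvc) hχ.2 (fun x hx => by rw [zN x hx, zero_mul])
  have iNW : Integrable (fun x => (NF F G v x + Wz (Rc g Γ F x) (v x)) * vol g x) :=
    sue_integ ((cN.add cW).mul hvc) hχ.2 (fun x hx => by
      rw [zN x hx, (z x hx).1, sue_wz0]
      simp)
  have iI : Integrable (fun x => lam * q2 (v x) * vol g x) :=
    sue_integ ((continuous_const.mul cI).mul hvc) hχ.2 (fun x hx => by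
      rw [(z x hx).1, sue_q2_zero]
      simp)
  have iD : Integrable (fun x => (q2 (dF F G v x) + q2 (dlF F G (fun _ => 0) v x)) *
      vol g x) :=
    sue_integ ((cD.add cdl).mul hvc) hχ.2 (fun x hx => by
      rw [(z x hx).2.2.1, (z x hx).2.2.2, sue_q2_zero, sue_q2_zero]
      simp)
  -- on K
  have s1 : ∫ x in K, NF F G u x * vol g x = ∫ x in K, NF F G v x * vol g x := by
    refine setIntegral_congr_fun hK.measurableSet (fun x hx => ?_)
    have hx1 := h1 x hx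
    have hx2 : fderiv ℝ χ x = 0 := by
      refine IsLocalMax.fderiv_eq_zero (Filter.Eventually.of_forall fun y => ?_)
      rw [hx1]
      exact (h01 y).2
    have hx3 : ∀ a, cv F G v x a = cv F G u x a := by
      intro a
      rw [hvd, (l2 χ u hχ.1 hu x).1 a, hx1, hx2]
      simp
    simp only [NF, hx3]
  have s2 : ∫ x in K, NF F G v x * vol g x ≤ ∫ x, NF F G v x * vol g x := by
    refine setIntegral_le_integral iN (ae_of_all _ fun x => ?_)
    refine mul_nonneg ?_ (hvp x)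
    unfold NF
    exact Finset.sum_nonneg fun a _ => n1 _
  have s3 : ∫ x, NF F G v x * vol g x ≤
      ∫ x, ((NF F G v x + Wz (Rc g Γ F x) (v x)) * vol g x + lam * q2 (v x) * vol g x) := by
    refine integral_mono iN (iNW.add iI) (fun x => ?_)
    show NF F G v x * vol g x ≤
      (NF F G v x + Wz (Rc g Γ F x) (v x)) * vol g x + lam * q2 (v x) * vol g x
    have h : -(lam * q2 (v x)) ≤ Wz (Rc g Γ F x) (v x) := by
      by_cases hx : x ∈ tsupport χ
      · exact hW x (hχS hx) (v x) (hva x)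
      · rw [(z x hx).1, sue_wz0, sue_q2_zero]
        simp
    have h2 : 0 ≤ (Wz (Rc g Γ F x) (v x) + lam * q2 (v x)) * vol g x :=
      mul_nonneg (by linarith) (hvp x)
    linarith
  have s4 : ∫ x, ((NF F G v x + Wz (Rc g Γ F x) (v x)) * vol g x +
      lam * q2 (v x) * vol g x) = ∫ x, ((q2 (dF F G v x) + q2 (dlF F G (fun _ => 0) v x)) *
      vol g x + lam * q2 (v x) * vol g x) := by
    rw [integral_add iNW iI, hbo, ← integral_add iD iI]
  have s5 : ∫ x, ((q2 (dF F G v x) + q2 (dlF F G (fun _ => 0) v x)) *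
      vol g x + lam * q2 (v x) * vol g x) =
      ∫ x in tsupport χ, ((q2 (dF F G v x) + q2 (dlF F G (fun _ => 0) v x)) *
      vol g x + lam * q2 (v x) * vol g x) := by
    refine (setIntegral_eq_integral_of_forall_compl_eq_zero (fun x hx => ?_)).symm
    rw [(z x hx).1, (z x hx).2.2.1, (z x hx).2.2.2, sue_q2_zero, sue_q2_zero, sue_q2_zero]
    simp
  have cDu : Continuous (fun x => q2 (dF F G u x)) := sue_q2_cont.comp (d1 u hu).2.continuous
  have cIu : Continuous (fun x => q2 (u x)) := sue_q2_cont.comp hu.continuous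
  have cdlu : Continuous (fun x => q2 (dlF F G (fun _ => 0) u x)) :=
    sue_q2_cont.comp (d2 (fun _ => 0) u contDiff_const hu).continuous
  have s6 : ∫ x in tsupport χ, ((q2 (dF F G v x) + q2 (dlF F G (fun _ => 0) v x)) *
      vol g x + lam * q2 (v x) * vol g x) ≤ ∫ x in tsupport χ,
      (2 * (q2 (dF F G u x) + q2 (dlF F G (fun _ => 0) u x)) +
        ((4 * m + 6) * B + lam) * q2 (u x)) * vol g x := by
    refine setIntegral_mono_on (iD.add iI).integrableOn ?_ hχ.2.measurableSet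
      (fun x _ => ?_)
    · exact (((continuous_const.mul (cDu.add cdlu)).add
        (continuous_const.mul cIu)).mul hvc).continuousOn.integrableOn_compact hχ.2
    · have e1 := sue_mul hTr hNrm hLbz hg hF χ u hχ.1 hu x
      rw [hvd]
      have e2 : χ x ^ 2 ≤ 1 := pow_le_one₀ (h01 x).1 (h01 x).2
      have e3 : 2 * χ x ^ 2 * (q2 (dF F G u x) + q2 (dlF F G (fun _ => 0) u x)) ≤
          2 * (q2 (dF F G u x) + q2 (dlF F G (fun _ => 0) u x)) :=
        mul_le_mul_of_nonneg_right (by linarith) (add_nonneg (n2 _) (n0 _))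
      have e4 : (4 * m + 6) * (gs g χ x * q2 (u x)) ≤ (4 * m + 6) * (B * q2 (u x)) :=
        mul_le_mul_of_nonneg_left (mul_le_mul_of_nonneg_right (hB x) (n1 _)) (by positivity)
      have e5 : q2 (χ x • u x) ≤ q2 (u x) := by
        rw [(hNrm n (m + 1)).2.1]
        exact mul_le_of_le_one_left (n1 _) e2
      have e6 : lam * q2 (χ x • u x) ≤ lam * q2 (u x) := mul_le_mul_of_nonneg_left e5 hlam
      have e7 := mul_le_mul_of_nonneg_right (add_le_add (e1.trans (add_le_add e3 e4)) e6)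
        (hvp x)
      calc _ = (q2 (dF F G (fun y => χ y • u y) x) +
          q2 (dlF F G (fun _ => 0) (fun y => χ y • u y) x) + lam * q2 (χ x • u x)) *
          vol g x := by ring
        _ ≤ _ := e7
        _ = _ := by ring
  rw [s1]
  refine s2.trans (s3.trans ?_)
  rw [s4, s5]
  exact s6


/-! ### the error term -/

theorem sue_int5 {n : ℕ} {μ : Measure (E n)} {a b c d e : E n → ℝ} (ha : Integrable a μ)
    (hb : Integrable b μ) (hc : Integrable c μ) (hd : Integrable d μ) (he : Integrable e μ)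
    (r1 r2 r3 r4 r5 : ℝ) :
    ∫ x, (r1 * a x + r2 * b x + r3 * c x + r4 * d x + r5 * e x) ∂μ =
      r1 * (∫ x, a x ∂μ) + r2 * (∫ x, b x ∂μ) + r3 * (∫ x, c x ∂μ) + r4 * (∫ x, d x ∂μ) +
        r5 * (∫ x, e x ∂μ) := by
  have h1 := (ha.const_mul r1).add (hb.const_mul r2)
  have h2 := h1.add (hc.const_mul r3)
  have h3 := h2.add (hd.const_mul r4)
  have e4 := integral_add h3 (he.const_mul r5)
  have e3 := integral_add h2 (hd.const_mul r4)
  have e2 := integral_add h1 (hc.const_mul r3)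
  have e1 := integral_add (ha.const_mul r1) (hb.const_mul r2)
  simp only [Pi.add_apply] at e1 e2 e3 e4
  rw [e4, e3, e2, e1]
  simp only [integral_const_mul]

/-- the pointwise estimate of the derivatives of `φ u` -/
theorem sue_tfu (hTr : StTr) (hNrm : TNrm) (hLbz : TLbz) {n m : ℕ} {g : E n → Bl n}
    {Γ : E n → Bm n} {F : Fin n → E n → E n} {G : E n → Fin n → Fin n → Fin n → ℝ}
    (hg : IsMet g) (hF : Frm g Γ F G) (u : E n → Tn n (m + 1)) (hu : ContDiff ℝ ∞ u)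
    (ε T : ℝ) (p : ℕ) (χ : E n → ℝ) (hε : 0 < ε) (hT : 0 < T) (hχ : ContDiff ℝ ∞ χ)
    (b B : ℝ) (hb : ∀ x, χ x ^ 2 ≤ b) (hB : ∀ x, gs g χ x ≤ B) (x : E n) :
    q2 (dF F G (fun y => tf T p χ (fun y => q2 (u y) + ε) y • u y) x) +
      q2 (dlF F G (fun _ => 0) (fun y => tf T p χ (fun y => q2 (u y) + ε) y • u y) x) ≤
    2 * (b * T ^ p) ^ 2 * (q2 (dF F G u x) + q2 (dlF F G (fun _ => 0) u x)) +
      (4 * m + 6) * (8 * b * (T ^ p) ^ 2 * B) * q2 (u x) +
      (4 * m + 6) * (8 * b ^ 2 * (p * T ^ p) ^ 2) * NF F G u x := by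
  have hq0 : ∀ y, 0 ≤ q2 (u y) := fun y => ((hNrm n (m + 1)).1 _).1
  have n2 : 0 ≤ q2 (dF F G u x) := ((hNrm n (m + 2)).1 _).1
  have n0 : 0 ≤ q2 (dlF F G (fun _ => 0) u x) := ((hNrm n m).1 _).1
  have nN : 0 ≤ NF F G u x := by
    unfold NF
    exact Finset.sum_nonneg fun a _ => ((hNrm n (m + 1)).1 _).1
  have hw0 : ∀ y, 0 < q2 (u y) + ε := fun y => by linarith [hq0 y]
  have hws := sue_wsm u hu ε
  have hts := sue_tfs T p χ (fun y => q2 (u y) + ε) hT hχ hws hw0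
  have e1 := sue_mul hTr hNrm hLbz hg hF _ u hts hu x
  have hN := sue_gsw hTr hNrm hLbz hg hF u hu ε hε.le x
  have hgs1 := sue_gs hTr hg hF (fun y => q2 (u y) + ε) x
  have hgs2 := sue_gs hTr hg hF χ x
  have hgs3 := sue_gs hTr hg hF (tf T p χ (fun y => q2 (u y) + ε)) x
  have hdf : ∀ a, fderiv ℝ (tf T p χ (fun y => q2 (u y) + ε)) x (F a x) = _ := fun a =>
    sue_tfd T p χ (fun y => q2 (u y) + ε) hT hχ hws hw0 x (F a x)
  obtain ⟨Fq0, Fq1⟩ := sue_Fq T (q2 (u x) + ε) p hT (hw0 x)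
  obtain ⟨t0, t1, -⟩ := sue_tau T (q2 (u x) + ε) hT (hw0 x)
  have Fp0 : 0 ≤ tau T (q2 (u x) + ε) ^ p := by positivity
  have Fp1 : tau T (q2 (u x) + ε) ^ p ≤ T ^ p := pow_le_pow_left₀ t0.le t1 p
  have hwx := hw0 x
  have hqx := hq0 x
  have hbx := hb x
  have hBx := hB x
  have htf : tf T p χ (fun y => q2 (u y) + ε) x = χ x ^ 2 * tau T (q2 (u x) + ε) ^ p := rfl
  have hTp : 0 ≤ T ^ p := by positivity
  simp only [hdf] at hgs3
  have hqw : q2 (u x) ≤ q2 (u x) + ε := by linarith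
  rw [htf] at e1
  generalize hgw : gs g (fun y => q2 (u y) + ε) x = gw at *
  generalize hgc : gs g χ x = gc at *
  generalize gs g (tf T p χ (fun y => q2 (u y) + ε)) x = gf at *
  generalize NF F G u x = N at *
  generalize hFq : (p : ℝ) * tau T (q2 (u x) + ε) ^ (p - 1) * (T / (T + (q2 (u x) + ε))) ^ 2 =
    Fq at *
  generalize tau T (q2 (u x) + ε) ^ p = Fp at *
  generalize q2 (u x) + ε = w at *
  generalize χ x = c at *
  generalize q2 (u x) = q at *
  have hgc0 : 0 ≤ gc := by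
    rw [hgs2]
    exact Finset.sum_nonneg fun a _ => sq_nonneg _
  have hb0 : 0 ≤ b := (sq_nonneg c).trans hbx
  have hB0 : 0 ≤ B := hgc0.trans hBx
  -- the gradient of the test function
  have s1 : gf ≤ 8 * c ^ 2 * Fp ^ 2 * gc + 2 * c ^ 4 * Fq ^ 2 * gw := by
    rw [hgs3, hgs1, hgs2, Finset.mul_sum, Finset.mul_sum, ← Finset.sum_add_distrib]
    refine Finset.sum_le_sum fun a _ => ?_
    generalize fderiv ℝ χ x (F a x) = r
    generalize fderiv ℝ (fun y => q2 (u y) + ε) x (F a x) = s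
    have h : 0 ≤ (2 * c * r * Fp - c ^ 2 * Fq * s) ^ 2 := sq_nonneg _
    linarith
  have s2 : gf * q ≤ 8 * b * (T ^ p) ^ 2 * B * q + 8 * b ^ 2 * (p * T ^ p) ^ 2 * N := by
    have h1 : 8 * c ^ 2 * Fp ^ 2 * gc ≤ 8 * b * (T ^ p) ^ 2 * B := by
      gcongr
    have h2 : 2 * c ^ 4 * Fq ^ 2 * gw * q ≤ 8 * b ^ 2 * (p * T ^ p) ^ 2 * N := by
      have h3 : 2 * c ^ 4 * Fq ^ 2 * gw * q ≤ 2 * c ^ 4 * Fq ^ 2 * (4 * w * N) * w := by
        gcongr
      have h4 : 2 * c ^ 4 * Fq ^ 2 * (4 * w * N) * w = 8 * (c ^ 2) ^ 2 * (Fq * w) ^ 2 * N := by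
        ring
      have h5 : 0 ≤ Fq * w := mul_nonneg Fq0 hwx.le
      have h6 : 8 * (c ^ 2) ^ 2 * (Fq * w) ^ 2 * N ≤ 8 * b ^ 2 * (p * T ^ p) ^ 2 * N := by
        gcongr
      linarith
    have h7 := mul_le_mul_of_nonneg_right s1 hqx
    have h8 := mul_le_mul_of_nonneg_right h1 hqx
    linarith
  have s3 : 2 * (c ^ 2 * Fp) ^ 2 * (q2 (dF F G u x) + q2 (dlF F G (fun _ => 0) u x)) ≤
      2 * (b * T ^ p) ^ 2 * (q2 (dF F G u x) + q2 (dlF F G (fun _ => 0) u x)) := by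
    gcongr
  have s4 := mul_le_mul_of_nonneg_left s2 (show (0 : ℝ) ≤ 4 * m + 6 by positivity)
  linarith

/-- the estimate of the error term -/
theorem sue_e2 (hDlv : StDlv) (hNrm : TNrm) (hDer : TDer) (hAdj : TAdj)
    {n m : ℕ} {g : E n → Bl n}
    {Γ : E n → Bm n} {F : Fin n → E n → E n} {G : E n → Fin n → Fin n → Fin n → ℝ}
    (hg : IsMet g) (hΓ : IsChr g Γ) (hF : Frm g Γ F G) (P : E n → Tn n (m + 2))
    (hP : ContDiff ℝ ∞ P) (hPa : Al P) (hδ : ∀ x, dlF F G (fun _ => 0) P x = 0)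
    (u : E n → Tn n (m + 1)) (hu : ContDiff ℝ ∞ u) (φ : E n → ℝ) (hφ : ContDiff ℝ ∞ φ)
    (K : Set (E n)) (hK : IsCompact K) (hφK : tsupport φ ⊆ K) (θ A₁ A₂ A₃ : ℝ) (hθ : 0 < θ)
    (hA : ∀ x, q2 (dF F G (fun y => φ y • u y) x) +
      q2 (dlF F G (fun _ => 0) (fun y => φ y • u y) x) ≤
      A₁ * (q2 (dF F G u x) + q2 (dlF F G (fun _ => 0) u x)) + A₂ * q2 (u x) +
        A₃ * NF F G u x) :
    ∫ x, (ipt (dF F G u x) (dF F G (fun y => φ y • u y) x) +
      ipt (dlF F G (fun _ => 0) u x) (dlF F G (fun _ => 0) (fun y => φ y • u y) x)) *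
        vol g x ≤
    1 / (2 * θ) * (∫ x in K, q2 (dF F G u x - P x) * vol g x) +
      (1 / (2 * θ) + θ / 2 * A₁) * (∫ x in K, q2 (dlF F G (fun _ => 0) u x) * vol g x) +
      θ / 2 * A₁ * (∫ x in K, q2 (dF F G u x) * vol g x) +
      θ / 2 * A₂ * (∫ x in K, q2 (u x) * vol g x) +
      θ / 2 * A₃ * (∫ x in K, NF F G u x * vol g x) := by
  obtain ⟨hv1, hv2, -⟩ := hDlv n g Γ hg hΓ
  have hvc : Continuous (vol g) := hv1.continuous
  have hvp : ∀ x, 0 ≤ vol g x := fun x => (hv2 x).le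
  obtain ⟨β, hβd⟩ : ∃ β : E n → Tn n (m + 1), β = fun y => φ y • u y := ⟨_, rfl⟩
  rw [← hβd] at hA ⊢
  have hβ : ContDiff ℝ ∞ β := by
    rw [hβd]
    exact hφ.smul hu
  have hsupp : ∀ x, x ∉ K → x ∉ tsupport β := by
    intro x hx h
    apply hx
    rw [hβd] at h
    exact hφK (tsupport_smul_subset_left φ u h)
  have hφc : HasCompactSupport φ := IsCompact.of_isClosed_subset hK isClosed_closure hφK
  have hβc : HasCompactSupport β := by
    rw [hβd]
    exact hφc.smul_right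
  have z : ∀ x, x ∉ K → _ := fun x hx => sue_dl0 hDer hF β x (hsupp x hx)
  obtain ⟨d1, -, -, -, -, -, -, -⟩ := hDer n (m + 1) g Γ F G hF
  obtain ⟨-, d2, -, -, -, -, -, -⟩ := hDer n m g Γ F G hF
  have cDu : Continuous (fun x => dF F G u x) := (d1 u hu).2.continuous
  have cDβ : Continuous (fun x => dF F G β x) := (d1 β hβ).2.continuous
  have cdu : Continuous (fun x => dlF F G (fun _ => 0) u x) :=
    (d2 (fun _ => 0) u contDiff_const hu).continuous
  have cdβ : Continuous (fun x => dlF F G (fun _ => 0) β x) :=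
    (d2 (fun _ => 0) β contDiff_const hβ).continuous
  have hadj := hAdj n (m + 1) g Γ F G hg hΓ hF (fun _ => 0) contDiff_const P hP hPa β hβ hβc
  have hwt : ∀ x, wt g (fun _ => 0) x = vol g x := by
    intro x
    unfold wt
    simp
  simp only [hwt, hδ] at hadj
  have h0 : ∀ x, ipt (0 : Tn n (m + 1)) (β x) * vol g x = 0 := by
    intro x
    rw [sue_ipt_comm, sue_ipt_zero, zero_mul]
  simp only [h0, integral_zero, neg_zero] at hadj
  have i1 : Integrable (fun x => ipt (P x) (dF F G β x) * vol g x) :=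
    sue_integ ((sue_ipt_cont hP.continuous cDβ).mul hvc) hK (fun x hx => by
      rw [(z x hx).2.2.1, sue_ipt_zero, zero_mul])
  have i2 : Integrable (fun x => (ipt (dF F G u x - P x) (dF F G β x) +
      ipt (dlF F G (fun _ => 0) u x) (dlF F G (fun _ => 0) β x)) * vol g x) :=
    sue_integ (((sue_ipt_cont (cDu.sub hP.continuous) cDβ).add (sue_ipt_cont cdu cdβ)).mul hvc)
      hK (fun x hx => by
      rw [(z x hx).2.2.1, (z x hx).2.2.2, sue_ipt_zero, sue_ipt_zero]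
      simp)
  have s1 : ∫ x, (ipt (dF F G u x) (dF F G β x) +
      ipt (dlF F G (fun _ => 0) u x) (dlF F G (fun _ => 0) β x)) * vol g x =
      ∫ x, (ipt (dF F G u x - P x) (dF F G β x) +
      ipt (dlF F G (fun _ => 0) u x) (dlF F G (fun _ => 0) β x)) * vol g x := by
    have e1 := integral_add i2 i1
    rw [hadj, add_zero] at e1
    rw [← e1]
    refine integral_congr_ae (ae_of_all _ fun x => ?_)
    simp only [sue_ipt_sub]
    ring
  have s2 : ∫ x, (ipt (dF F G u x - P x) (dF F G β x) +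
      ipt (dlF F G (fun _ => 0) u x) (dlF F G (fun _ => 0) β x)) * vol g x =
      ∫ x in K, (ipt (dF F G u x - P x) (dF F G β x) +
      ipt (dlF F G (fun _ => 0) u x) (dlF F G (fun _ => 0) β x)) * vol g x := by
    refine (setIntegral_eq_integral_of_forall_compl_eq_zero (fun x hx => ?_)).symm
    rw [(z x hx).2.2.1, (z x hx).2.2.2, sue_ipt_zero, sue_ipt_zero]
    simp
  have J1 : IntegrableOn (fun x => q2 (dF F G u x - P x) * vol g x) K :=
    ((sue_q2_cont.comp (cDu.sub hP.continuous)).mul hvc).continuousOn.integrableOn_compact hK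
  have J2 : IntegrableOn (fun x => q2 (dlF F G (fun _ => 0) u x) * vol g x) K :=
    ((sue_q2_cont.comp cdu).mul hvc).continuousOn.integrableOn_compact hK
  have J3 : IntegrableOn (fun x => q2 (dF F G u x) * vol g x) K :=
    ((sue_q2_cont.comp cDu).mul hvc).continuousOn.integrableOn_compact hK
  have J4 : IntegrableOn (fun x => q2 (u x) * vol g x) K :=
    ((sue_q2_cont.comp hu.continuous).mul hvc).continuousOn.integrableOn_compact hK
  have J5 : IntegrableOn (fun x => NF F G u x * vol g x) K :=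
    ((sue_NFc hDer hF hu).mul hvc).continuousOn.integrableOn_compact hK
  have e5 := sue_int5 J1 J2 J3 J4 J5 (1 / (2 * θ)) (1 / (2 * θ) + θ / 2 * A₁) (θ / 2 * A₁)
    (θ / 2 * A₂) (θ / 2 * A₃)
  rw [s1, s2, ← e5]
  refine setIntegral_mono_on i2.integrableOn ?_ hK.measurableSet (fun x _ => ?_)
  · exact ((((J1.const_mul _).add (J2.const_mul _)).add (J3.const_mul _)).add
      (J4.const_mul _)).add (J5.const_mul _)
  · have r1 := sue_ipt_le hNrm (dF F G u x - P x) (dF F G β x) θ hθ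
    have r2 := sue_ipt_le hNrm (dlF F G (fun _ => 0) u x) (dlF F G (fun _ => 0) β x) θ hθ
    have r3 := mul_le_mul_of_nonneg_left (hA x) (show 0 ≤ θ / 2 by positivity)
    have r4 : ipt (dF F G u x - P x) (dF F G β x) +
        ipt (dlF F G (fun _ => 0) u x) (dlF F G (fun _ => 0) β x) ≤
        1 / (2 * θ) * q2 (dF F G u x - P x) + 1 / (2 * θ) * q2 (dlF F G (fun _ => 0) u x) +
        θ / 2 * (A₁ * (q2 (dF F G u x) + q2 (dlF F G (fun _ => 0) u x)) + A₂ * q2 (u x) +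
        A₃ * NF F G u x) := by
      rw [mul_add] at r3
      linarith
    have r5 := mul_le_mul_of_nonneg_right r4 (hvp x)
    refine r5.trans (le_of_eq ?_)
    ring


/-- SUE -/
theorem hSue (hChr : StChr) (hTr : StTr) (hDlv : StDlv) (hNrm : TNrm) (hDer : TDer)
    (hLbz : TLbz) (hAdj : TAdj) (hBol : SBol) (hBop : SBop) : SSue := by
  intro n m g Γ F G hg hΓ hF ψ P η hψ hψ0 hP hPa hδ hη hApJ S lam hS hlam hW hψS χ hχ hχS ε T κ
    p hε hT hκ
  obtain ⟨hv1, hv2, -⟩ := hDlv n g Γ hg hΓ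
  have hvc : Continuous (vol g) := hv1.continuous
  have hvp : ∀ x, 0 ≤ vol g x := fun x => (hv2 x).le
  have n1 : ∀ t : Tn n (m + 1), 0 ≤ q2 t := fun t => ((hNrm n (m + 1)).1 t).1
  have n2 : ∀ t : Tn n (m + 2), 0 ≤ q2 t := fun t => ((hNrm n (m + 2)).1 t).1
  have n0 : ∀ t : Tn n m, 0 ≤ q2 t := fun t => ((hNrm n m).1 t).1
  -- the data of the cut-off functions
  obtain ⟨χ₁, hχ₁, h01, hone, hχ₁S⟩ := sue_cut hχ.2 hS hχS
  obtain ⟨B₁, hB₁0, hB₁⟩ := sue_gs_bd hTr hg hF hχ₁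
  obtain ⟨B, hB0, hB⟩ := sue_gs_bd hTr hg hF hχ
  obtain ⟨b₀, hb₀⟩ := hχ.2.exists_bound_of_continuous hχ.1.continuous
  obtain ⟨b, hbd⟩ : ∃ b : ℝ, b = b₀ ^ 2 := ⟨_, rfl⟩
  have hb : ∀ x, χ x ^ 2 ≤ b := by
    intro x
    rw [hbd, ← sq_abs (χ x)]
    exact pow_le_pow_left₀ (abs_nonneg _) (hb₀ x) 2
  have hb0 : 0 ≤ b := by
    rw [hbd]
    exact sq_nonneg _
  obtain ⟨K, hKd⟩ : ∃ K, K = tsupport χ := ⟨_, rfl⟩
  obtain ⟨L, hLd⟩ : ∃ L, L = tsupport χ₁ := ⟨_, rfl⟩
  have hK : IsCompact K := by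
    rw [hKd]
    exact hχ.2
  have hL : IsCompact L := by
    rw [hLd]
    exact hχ₁.2
  have hKL : K ⊆ L := by
    intro x hx
    rw [hKd] at hx
    rw [hLd]
    refine subset_closure ?_
    rw [Function.mem_support, hone x hx]
    exact one_ne_zero
  have hLS : L ⊆ S := by
    rw [hLd]
    exact hχ₁S
  -- constants
  generalize hSP : ∫ x in L, q2 (P x) * vol g x = SP
  generalize hSE : ∫ x in L, q2 (η x) * vol g x = SE
  have hSP0 : 0 ≤ SP := by
    rw [← hSP]
    exact integral_nonneg fun x => mul_nonneg (n2 _) (hvp x)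
  have hSE0 : 0 ≤ SE := by
    rw [← hSE]
    exact integral_nonneg fun x => mul_nonneg (n1 _) (hvp x)
  obtain ⟨A₀, hA₀⟩ : ∃ A₀ : ℝ, A₀ = (4 * m + 6) * B₁ + lam := ⟨_, rfl⟩
  obtain ⟨C₀, hC₀⟩ : ∃ C₀ : ℝ, C₀ = 2 * (2 * SP + 2) + 2 + A₀ * (2 * SE + 2) := ⟨_, rfl⟩
  obtain ⟨A₁, hA₁⟩ : ∃ A₁ : ℝ, A₁ = 2 * (b * T ^ p) ^ 2 := ⟨_, rfl⟩
  obtain ⟨A₂, hA₂⟩ : ∃ A₂ : ℝ, A₂ = (4 * m + 6) * (8 * b * (T ^ p) ^ 2 * B) := ⟨_, rfl⟩
  obtain ⟨A₃, hA₃⟩ : ∃ A₃ : ℝ, A₃ = (4 * m + 6) * (8 * b ^ 2 * (p * T ^ p) ^ 2) := ⟨_, rfl⟩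
  have hA₀0 : 0 ≤ A₀ := by
    rw [hA₀]
    positivity
  have hC₀0 : 0 ≤ C₀ := by
    rw [hC₀]
    positivity
  have hA₁0 : 0 ≤ A₁ := by
    rw [hA₁]
    positivity
  have hA₂0 : 0 ≤ A₂ := by
    rw [hA₂]
    positivity
  have hA₃0 : 0 ≤ A₃ := by
    rw [hA₃]
    positivity
  obtain ⟨C₁, hC₁⟩ : ∃ C₁ : ℝ, C₁ = A₁ * (2 * SP + 3) + A₂ * (2 * SE + 2) + A₃ * C₀ :=
    ⟨_, rfl⟩
  have hC₁0 : 0 ≤ C₁ := by
    rw [hC₁]
    positivity
  obtain ⟨θ, hθ⟩ : ∃ θ : ℝ, θ = min 1 (κ / (1 + C₁ / 2)) := ⟨_, rfl⟩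
  have hθ0 : 0 < θ := by
    rw [hθ]
    exact lt_min one_pos (by positivity)
  have hθ1 : θ ≤ 1 := by
    rw [hθ]
    exact min_le_left _ _
  have hθ2 : θ * (1 + C₁ / 2) ≤ κ := by
    have h : θ ≤ κ / (1 + C₁ / 2) := by
      rw [hθ]
      exact min_le_right _ _
    rwa [le_div_iff₀ (by positivity)] at h
  have hθ3 : θ ^ 2 ≤ κ := by
    have h1 : θ ^ 2 ≤ θ := by nlinarith
    have h2 : 0 ≤ θ * (C₁ / 2) := by positivity
    linarith
  have hθ4 : θ ^ 2 ≤ 1 := pow_le_one₀ hθ0.le hθ1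
  obtain ⟨u, hu, hua, p1, p2, p3⟩ := hApJ L hL (θ ^ 2) (by positivity)
  obtain ⟨d1, -, -, -, -, -, -, -⟩ := hDer n (m + 1) g Γ F G hF
  obtain ⟨-, d2, -, -, -, -, -, -⟩ := hDer n m g Γ F G hF
  -- the weight is trivial on `S`
  have hdl : ∀ x ∈ L, dlF F G ψ u x = dlF F G (fun _ => 0) u x := by
    intro x hx
    have h1 : fderiv ℝ ψ x = 0 := by
      have h2 : ψ =ᶠ[𝓝 x] fun _ => 0 := by
        filter_upwards [hS.mem_nhds (hLS hx)] with y hy
        exact hψS y hy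
      rw [h2.fderiv_eq]
      simp
    unfold dlF
    rw [h1]
    simp
  have p3' : ∫ x in L, q2 (dlF F G (fun _ => 0) u x) * vol g x ≤ θ ^ 2 := by
    refine le_trans (le_of_eq ?_) p3
    refine setIntegral_congr_fun hL.measurableSet (fun x hx => ?_)
    show q2 (dlF F G (fun _ => 0) u x) * vol g x = q2 (dlF F G ψ u x) * vol g x
    rw [hdl x hx]
  -- integrability on `L`
  have cDu : Continuous (fun x => dF F G u x) := (d1 u hu).2.continuous
  have cdu : Continuous (fun x => dlF F G (fun _ => 0) u x) :=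
    (d2 (fun _ => 0) u contDiff_const hu).continuous
  have J0 : IntegrableOn (fun x => q2 (u x - η x) * vol g x) L :=
    sue_l2 η u (vol g) hη hu.continuous hvc L hL
  have J1 : IntegrableOn (fun x => q2 (dF F G u x - P x) * vol g x) L :=
    ((sue_q2_cont.comp (cDu.sub hP.continuous)).mul hvc).continuousOn.integrableOn_compact hL
  have J2 : IntegrableOn (fun x => q2 (dlF F G (fun _ => 0) u x) * vol g x) L :=
    ((sue_q2_cont.comp cdu).mul hvc).continuousOn.integrableOn_compact hL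
  have J3 : IntegrableOn (fun x => q2 (dF F G u x) * vol g x) L :=
    ((sue_q2_cont.comp cDu).mul hvc).continuousOn.integrableOn_compact hL
  have J4 : IntegrableOn (fun x => q2 (u x) * vol g x) L :=
    ((sue_q2_cont.comp hu.continuous).mul hvc).continuousOn.integrableOn_compact hL
  have J6 : IntegrableOn (fun x => q2 (P x) * vol g x) L :=
    ((sue_q2_cont.comp hP.continuous).mul hvc).continuousOn.integrableOn_compact hL
  have J7 : IntegrableOn (fun x => q2 (η x) * vol g x) L :=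
    sue_l2' η (vol g) hη hvc L hL
  have q3 : ∫ x in L, q2 (dF F G u x) * vol g x ≤ 2 * SP + 2 * θ ^ 2 := by
    have h1 : ∫ x in L, q2 (dF F G u x) * vol g x ≤
        ∫ x in L, (2 * (q2 (P x) * vol g x) + 2 * (q2 (dF F G u x - P x) * vol g x)) := by
      refine setIntegral_mono_on J3 ((J6.const_mul 2).add (J1.const_mul 2)) hL.measurableSet
        (fun x _ => ?_)
      have h2 := (hNrm n (m + 2)).2.2.2.1 (P x) (dF F G u x - P x) 1 one_pos
      rw [add_sub_cancel] at h2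
      have h3 := mul_le_mul_of_nonneg_right h2 (hvp x)
      refine h3.trans (le_of_eq ?_)
      ring
    rw [integral_add (J6.const_mul 2) (J1.const_mul 2), integral_const_mul,
      integral_const_mul, hSP] at h1
    linarith
  have q4 : ∫ x in L, q2 (u x) * vol g x ≤ 2 * SE + 2 * θ ^ 2 := by
    have h1 : ∫ x in L, q2 (u x) * vol g x ≤
        ∫ x in L, (2 * (q2 (η x) * vol g x) + 2 * (q2 (u x - η x) * vol g x)) := by
      refine setIntegral_mono_on J4 ((J7.const_mul 2).add (J0.const_mul 2)) hL.measurableSet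
        (fun x _ => ?_)
      have h2 := (hNrm n (m + 1)).2.2.2.1 (η x) (u x - η x) 1 one_pos
      rw [add_sub_cancel] at h2
      have h3 := mul_le_mul_of_nonneg_right h2 (hvp x)
      refine h3.trans (le_of_eq ?_)
      ring
    rw [integral_add (J7.const_mul 2) (J0.const_mul 2), integral_const_mul,
      integral_const_mul, hSE] at h1
    linarith
  -- the gradient
  have q5 : ∫ x in K, NF F G u x * vol g x ≤ C₀ := by
    have h1 := sue_e1 hChr hTr hDlv hNrm hDer hLbz hBol hg hΓ hF S lam hlam hW χ₁ hχ₁ h01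
      hχ₁S K hK (fun x hx => hone x (by rwa [hKd] at hx)) B₁ hB₁ u hu hua
    rw [← hLd, ← hA₀] at h1
    have h2 : ∫ x in L, (2 * (q2 (dF F G u x) + q2 (dlF F G (fun _ => 0) u x)) +
        A₀ * q2 (u x)) * vol g x = 2 * (∫ x in L, q2 (dF F G u x) * vol g x) +
        2 * (∫ x in L, q2 (dlF F G (fun _ => 0) u x) * vol g x) +
        A₀ * (∫ x in L, q2 (u x) * vol g x) := by
      have h3 := sue_int5 J3 J2 J4 J4 J4 2 2 A₀ 0 0
      rw [zero_mul, add_zero, add_zero] at h3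
      rw [← h3]
      refine integral_congr_ae (ae_of_all _ fun x => ?_)
      simp only
      ring
    rw [h2] at h1
    have h4 := mul_le_mul_of_nonneg_left q4 hA₀0
    have h5 := mul_le_mul_of_nonneg_left hθ4 hA₀0
    rw [hC₀]
    linarith
  -- restriction to `K`
  have mono : ∀ f : E n → ℝ, (∀ x, 0 ≤ f x) → IntegrableOn f L →
      ∫ x in K, f x ≤ ∫ x in L, f x := by
    intro f hf hfi
    refine setIntegral_mono_set hfi (ae_of_all _ fun x => hf x) (ae_of_all _ fun x hx => ?_)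
    exact hKL hx
  refine ⟨u, hu, hua, ?_, ?_⟩
  · rw [← hKd]
    exact ((mono _ (fun x => mul_nonneg (n1 _) (hvp x)) J0).trans p1).trans hθ3
  · refine sue_sub hChr hTr hDlv hNrm hDer hLbz hBop hg hΓ hF u hu hua S lam hlam hW ε T p χ hε
      hT hχ hχS κ ?_
    have hq0 : ∀ y, 0 ≤ q2 (u y) := fun y => n1 _
    have hw0 : ∀ y, 0 < q2 (u y) + ε := fun y => by linarith [hq0 y]
    have hts := sue_tfs T p χ (fun y => q2 (u y) + ε) hT hχ.1 (sue_wsm u hu ε) hw0
    have hsup : tsupport (tf T p χ (fun y => q2 (u y) + ε)) ⊆ K := by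
      rw [hKd]
      refine closure_minimal (fun x hx => ?_) (isClosed_tsupport χ)
      by_contra h
      refine hx ?_
      unfold tf
      rw [image_eq_zero_of_notMem_tsupport h]
      simp
    have h1 := sue_e2 hDlv hNrm hDer hAdj hg hΓ hF P hP hPa hδ u hu _ hts K hK hsup θ A₁ A₂ A₃
      hθ0 (fun x => by
        rw [hA₁, hA₂, hA₃]
        exact sue_tfu hTr hNrm hLbz hg hF u hu ε T p χ hε hT hχ.1 b B hb hB x)
    refine h1.trans ?_
    have m1 := (mono _ (fun x => mul_nonneg (n2 _) (hvp x)) J1).trans p2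
    have m2 := (mono _ (fun x => mul_nonneg (n0 _) (hvp x)) J2).trans p3'
    have m3 := (mono _ (fun x => mul_nonneg (n2 _) (hvp x)) J3).trans q3
    have m4 := (mono _ (fun x => mul_nonneg (n1 _) (hvp x)) J4).trans q4
    have w1 := mul_le_mul_of_nonneg_left m1 (show 0 ≤ 1 / (2 * θ) by positivity)
    have w2 := mul_le_mul_of_nonneg_left m2 (show 0 ≤ 1 / (2 * θ) + θ / 2 * A₁ by positivity)
    have w3 := mul_le_mul_of_nonneg_left m3 (show 0 ≤ θ / 2 * A₁ by positivity)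
    have w4 := mul_le_mul_of_nonneg_left m4 (show 0 ≤ θ / 2 * A₂ by positivity)
    have w5 := mul_le_mul_of_nonneg_left q5 (show 0 ≤ θ / 2 * A₃ by positivity)
    have v1 : 1 / (2 * θ) * θ ^ 2 = θ / 2 := by
      field_simp
    have v2 := mul_le_mul_of_nonneg_left hθ4 (show 0 ≤ θ / 2 * A₁ by positivity)
    have v3 := mul_le_mul_of_nonneg_left hθ4 (show 0 ≤ θ / 2 * A₂ by positivity)
    have v4 : θ * (1 + C₁ / 2) = θ + θ / 2 * A₁ * (2 * SP + 3) + θ / 2 * A₂ * (2 * SE + 2) +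
        θ / 2 * A₃ * C₀ := by
      rw [hC₁]
      ring
    rw [v4] at hθ2
    rw [v1] at w1
    have v5 : (1 / (2 * θ) + θ / 2 * A₁) * θ ^ 2 = θ / 2 + θ / 2 * A₁ * θ ^ 2 := by
      rw [add_mul, v1]
    rw [v5] at w2
    linarith

end Pool.Agent.Helper71.QD
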